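import Pool.Agent.H56.JW.Targets
import Pool.Agent.H44.HC.HAX

/-!
# The extension property of sets which are not maximal (row HXA of the board jwq_modules)
-/

set_option autoImplicit false

open Finset Submodule

namespace Pool.Agent.H75.JWQ

open Pool.Agent.H56.JW
open Pool.Agent.H44.HC.Hax (contract fnl fnl_single Good)

variable {V : Type} [Fintype V] [DecidableEq V]

open Classical in
/-- the connectors of the copy `i` -/
noncomputable def cop (T : Finset (Elt V)) (i : Bool) : Finset (Elt V) :=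
  T.filter fun z => ∃ κ τ, z = Sum.inl (κ, τ, i)

open Classical in
/-- the attachments -/
noncomputable def att (T : Finset (Elt V)) : Finset (Elt V) :=
  T.filter fun z => ∃ w, z = Sum.inr w

omit [Fintype V] [DecidableEq V] in
theorem card_parts (T : Finset (Elt V)) :
    (cop T false).card + (cop T true).card + (att T).card ≤ T.card := by
  classical
  have hsub : cop T false ∪ cop T true ∪ att T ⊆ T := by
    intro z hz
    rw [mem_union, mem_union] at hz
    rcases hz with (hz | hz) | hz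
    · exact (mem_filter.1 hz).1
    · exact (mem_filter.1 hz).1
    · exact (mem_filter.1 hz).1
  have h1 : Disjoint (cop T false) (cop T true) := by
    rw [disjoint_left]
    intro z h1 h2
    obtain ⟨κ, τ, h3⟩ := (mem_filter.1 h1).2
    obtain ⟨κ', τ', h4⟩ := (mem_filter.1 h2).2
    rw [h3, Sum.inl.injEq, Prod.mk.injEq, Prod.mk.injEq] at h4
    exact absurd h4.2.2 (by decide)
  have h2 : Disjoint (cop T false ∪ cop T true) (att T) := by
    rw [disjoint_left]
    intro z h1 h2
    obtain ⟨w, h4⟩ := (mem_filter.1 h2).2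
    rw [mem_union] at h1
    rcases h1 with h1 | h1
    · obtain ⟨κ, τ, h3⟩ := (mem_filter.1 h1).2
      rw [h3] at h4
      exact absurd h4 (by simp)
    · obtain ⟨κ, τ, h3⟩ := (mem_filter.1 h1).2
      rw [h3] at h4
      exact absurd h4 (by simp)
  have h3 := card_le_card hsub
  rw [card_union_of_disjoint h2, card_union_of_disjoint h1] at h3
  exact h3

/-- the label of the first main vertex of a connector -/
def la (lab : V → V) : Elt V → V
  | .inl (κ, _, _) => lab κ.a
  | .inr (e, _, _, _) => e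

/-- the label of the second main vertex of a connector -/
def lb (lab : V → V) : Elt V → V
  | .inl (κ, _, _) => lab κ.b
  | .inr (e, _, _, _) => e

theorem np_eq (X : Finset V) (lab pi : V → V) :
    np X lab pi = (((univ \ X).image lab).image pi).card := by
  unfold np
  rw [image_image]
  rfl

/-- the contraction for one copy -/
theorem copy_pi (X : Finset V) (lab : V → V) (T : Finset (Elt V)) (i : Bool) :
    ∃ pi : V → V, (∀ κ τ, Sum.inl (κ, τ, i) ∈ T → pi (lab κ.a) = pi (lab κ.b)) ∧
      ((univ \ X).image lab).card ≤ np X lab pi + (cop T i).card := by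
  classical
  obtain ⟨pi, h1, h2⟩ := contract (la lab) (lb lab) ((univ \ X).image lab) (cop T i)
  refine ⟨pi, fun κ τ h => ?_, by rw [np_eq]; exact h2⟩
  exact h1 (Sum.inl (κ, τ, i)) (mem_filter.2 ⟨h, κ, τ, rfl⟩)

/-- a connector crossing a partition which is respected by `T'` is independent of `T'` -/
theorem not_span_cn (lab : V → V) (T : Finset (Elt V)) (i : Bool) (pi : V → V)
    (h : ∀ κ τ, Sum.inl (κ, τ, i) ∈ T → pi (lab κ.a) = pi (lab κ.b)) (κ : Cn V) (τ : V → ℕ)
    (hκ : pi (lab κ.a) ≠ pi (lab κ.b)) :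
    phiE lab (Sum.inl (κ, τ, i)) ∉ span ℚ (phiE lab '' (T : Set (Elt V))) := by
  classical
  intro hmem
  obtain ⟨C, hC⟩ : ∃ C : Finset V, C = univ.filter (fun v => pi v = pi (lab κ.a)) := ⟨_, rfl⟩
  have memC : ∀ v, v ∈ C ↔ pi v = pi (lab κ.a) := by
    intro v
    rw [hC, mem_filter]
    exact ⟨fun h => h.2, fun h => ⟨mem_univ _, h⟩⟩
  obtain ⟨F, hF⟩ : ∃ F : ((Bool → V → ℚ) × (V × Fin 2 → ℚ)) →ₗ[ℚ] ℚ,
    F = (fnl i C).comp (LinearMap.fst ℚ _ _) := ⟨_, rfl⟩
  have hle : span ℚ (phiE lab '' (T : Set (Elt V))) ≤ LinearMap.ker F := by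
    rw [span_le]
    rintro _ ⟨t, ht, rfl⟩
    rw [SetLike.mem_coe, LinearMap.mem_ker, hF, LinearMap.comp_apply]
    rcases t with ⟨κ', τ', j⟩ | ⟨e, j, b, s⟩
    · have h1 : (LinearMap.fst ℚ (Bool → V → ℚ) (V × Fin 2 → ℚ))
          (phiE lab (Sum.inl (κ', τ', j))) =
          Pi.single j (Pi.single (lab κ'.a) 1 - Pi.single (lab κ'.b) 1) := rfl
      rw [h1, fnl_single]
      by_cases hj : j = i
      · subst hj
        have h2 := h κ' τ' (mem_coe.1 ht)
        rw [if_pos rfl]
        by_cases h3 : lab κ'.a ∈ C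
        · have h4 : lab κ'.b ∈ C := (memC _).2 (h2 ▸ (memC _).1 h3)
          rw [if_pos h3, if_pos h4, sub_self]
        · have h4 : lab κ'.b ∉ C := fun h5 => h3 ((memC _).2 (h2 ▸ (memC _).1 h5))
          rw [if_neg h3, if_neg h4, sub_self]
      · rw [if_neg hj]
    · have h1 : (LinearMap.fst ℚ (Bool → V → ℚ) (V × Fin 2 → ℚ))
          (phiE lab (Sum.inr (e, j, b, s))) = 0 := rfl
      rw [h1, map_zero]
  have h0 := hle hmem
  rw [LinearMap.mem_ker, hF, LinearMap.comp_apply] at h0
  have h1 : (LinearMap.fst ℚ (Bool → V → ℚ) (V × Fin 2 → ℚ))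
      (phiE lab (Sum.inl (κ, τ, i))) =
      Pi.single i (Pi.single (lab κ.a) 1 - Pi.single (lab κ.b) 1) := rfl
  rw [h1, fnl_single, if_pos rfl, if_pos ((memC _).2 rfl),
    if_neg (fun h2 => hκ ((memC _).1 h2).symm)] at h0
  norm_num at h0

omit [Fintype V] in
/-- an attachment of a slot which is not attached in `T'` is independent of `T'` -/
theorem not_span_at (lab : V → V) (T : Finset (Elt V)) (e : V) (j : Fin 2)
    (h : ∀ b s, Sum.inr (e, j, b, s) ∉ T) (b : V) (s : ℕ) :
    phiE lab (Sum.inr (e, j, b, s)) ∉ span ℚ (phiE lab '' (T : Set (Elt V))) := by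
  classical
  intro hmem
  obtain ⟨F, hF⟩ : ∃ F : ((Bool → V → ℚ) × (V × Fin 2 → ℚ)) →ₗ[ℚ] ℚ,
    F = (LinearMap.proj (e, j)).comp (LinearMap.snd ℚ _ _) := ⟨_, rfl⟩
  have hle : span ℚ (phiE lab '' (T : Set (Elt V))) ≤ LinearMap.ker F := by
    rw [span_le]
    rintro _ ⟨t, ht, rfl⟩
    rw [SetLike.mem_coe, LinearMap.mem_ker, hF, LinearMap.comp_apply]
    rcases t with ⟨κ', τ', j'⟩ | ⟨e', j', b', s'⟩
    · rfl
    · show (Pi.single (e', j') (1 : ℚ) : V × Fin 2 → ℚ) (e, j) = 0
      refine Pi.single_eq_of_ne (fun h1 => ?_) _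
      rw [Prod.mk.injEq] at h1
      apply h b' s'
      rw [h1.1, h1.2]
      exact mem_coe.1 ht
  have h0 := hle hmem
  rw [LinearMap.mem_ker, hF, LinearMap.comp_apply] at h0
  have h1 : (Pi.single (e, j) (1 : ℚ) : V × Fin 2 → ℚ) (e, j) = 0 := h0
  rw [Pi.single_eq_same] at h1
  exact one_ne_zero h1

theorem pf_HXA : T_HXA := by
  classical
  intro V _ _ G L X lab q hcut hend T _ hTc R hR U hU
  obtain ⟨T', hT'⟩ : ∃ T' : Finset (Elt V), T' = T \ R := ⟨_, rfl⟩
  have hgoal : ∃ z, valE G L X lab q z ∧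
      phiE lab z ∉ span ℚ (phiE lab '' (T' : Set (Elt V))) ∧ Disjoint (spE L lab z) U := by
    have hT'c : T'.card + R.card = T.card := by
      have h1 := card_sdiff_add_card_eq_card hR
      have h2 : T'.card = (T \ R).card := by
        rw [hT']
      rw [h2]
      exact h1
    have hparts := card_parts T'
    obtain ⟨p0, hp0, hc0⟩ := copy_pi X lab T' false
    obtain ⟨p1, hp1, hc1⟩ := copy_pi X lab T' true
    obtain ⟨E', hE'⟩ : ∃ E' : Finset (V × Fin 2), E' = univ.filter fun e : V × Fin 2 =>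
      Opn L X e.1 e.2 ∧ ∀ b s, Sum.inr (e.1, e.2, b, s) ∉ T' := ⟨_, rfl⟩
    have hEc : (univ.filter fun e : V × Fin 2 => Opn L X e.1 e.2).card ≤
        E'.card + (att T').card := by
      obtain ⟨pr, hpr⟩ : ∃ pr : Elt V → V × Fin 2, ∀ e j b s, pr (Sum.inr (e, j, b, s)) = (e, j) :=
        ⟨fun z => match z with
          | .inl (κ, _, _) => (κ.a, 0)
          | .inr (e, j, _, _) => (e, j), fun _ _ _ _ => rfl⟩
      have hsub : (univ.filter fun e : V × Fin 2 => Opn L X e.1 e.2) ⊆
          E' ∪ (att T').image pr := by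
        intro e he
        rw [mem_filter] at he
        rw [mem_union, hE', mem_filter, mem_image]
        by_cases h : ∀ b s, Sum.inr (e.1, e.2, b, s) ∉ T'
        · exact Or.inl ⟨mem_univ _, he.2, h⟩
        · push Not at h
          obtain ⟨b, s, hbs⟩ := h
          exact Or.inr ⟨_, mem_filter.2 ⟨hbs, _, rfl⟩, hpr _ _ _ _⟩
      exact (card_le_card hsub).trans ((card_union_le _ _).trans
        (Nat.add_le_add_left card_image_le _))
    have hrk : rk L X lab = 2 * (((univ \ X).image lab).card - 1) +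
        (univ.filter fun e : V × Fin 2 => Opn L X e.1 e.2).card := rfl
    -- one copy
    have hcopy : ∀ (i : Bool) (pi : V → V),
        (∀ κ τ, Sum.inl (κ, τ, i) ∈ T' → pi (lab κ.a) = pi (lab κ.b)) →
        R.card + 1 ≤ 3 * (np X lab pi - 1) → ∃ z, valE G L X lab q z ∧
          phiE lab z ∉ span ℚ (phiE lab '' (T' : Set (Elt V))) ∧ Disjoint (spE L lab z) U := by
      intro i pi hpi hd
      obtain ⟨κ, τ, hv, ha, hne⟩ := hcut pi (by omega) U (by omega)
      refine ⟨Sum.inl (κ, τ, i), ⟨hv, ha.lt, ha.inj⟩, not_span_cn lab T' i pi hpi κ τ hne, ?_⟩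
      rw [disjoint_left]
      intro z hz
      unfold spE at hz
      rw [mem_union, mem_image, mem_image] at hz
      rcases hz with ⟨v, hv', rfl⟩ | ⟨p, hp, rfl⟩
      · exact ha.v v hv'
      · exact ha.s p hp
    by_cases h0 : R.card + 1 ≤ 3 * (np X lab p0 - 1)
    · exact hcopy false p0 hp0 h0
    · by_cases h1 : R.card + 1 ≤ 3 * (np X lab p1 - 1)
      · exact hcopy true p1 hp1 h1
      · have h2 : R.card + 1 ≤ 3 * E'.card := by omega
        have hne : E'.Nonempty := card_pos.1 (by omega)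
        obtain ⟨e, he, b, s, hb, hadj, hs, hU1, hU2⟩ := hend E' (fun e he => by
          rw [hE', mem_filter] at he
          exact he.2.1) hne U (by omega)
        rw [hE', mem_filter] at he
        refine ⟨Sum.inr (e.1, e.2, b, s), ⟨he.2.1, hb, hadj, hs⟩,
          not_span_at lab T' e.1 e.2 he.2.2 b s, ?_⟩
        rw [disjoint_left]
        intro z hz
        unfold spE at hz
        rw [mem_insert, mem_singleton] at hz
        rcases hz with rfl | rfl
        · exact hU1
        · exact hU2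
  obtain ⟨z, h1, h2, h3⟩ := hgoal
  refine ⟨z, h1, ?_, h3⟩
  rw [hT'] at h2
  intro h4
  exact h2 (by
    refine span_mono (Set.image_mono ?_) h4
    intro t ht
    rw [mem_coe, mem_sdiff] at ht ⊢
    exact ht)

end Pool.Agent.H75.JWQ
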