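import Pool.Agent.H75.JWQ.EXT1

/-!
# A path through a matching can be made to cover `B` (row EXT of the board jwq_modules)
-/

set_option autoImplicit false

open Finset

namespace Pool.Agent.H75.JWQ

open Pool.Agent.H56.JW

variable {V : Type}

/-- the graph restricted to `D` -/
def rst (G : SimpleGraph V) (D : Finset V) : SimpleGraph V where
  Adj u v := G.Adj u v ∧ u ∈ D ∧ v ∈ D
  symm := ⟨fun _ _ h => ⟨h.1.symm, h.2.2, h.2.1⟩⟩
  loopless := ⟨fun _ h => G.loopless.irrefl _ h.1⟩

theorem reach_mem {G : SimpleGraph V} {D : Finset V} {u v : V} (hu : u ∈ D)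
    (h : (rst G D).Reachable u v) : v ∈ D := by
  obtain ⟨p⟩ := h
  induction p with
  | nil => exact hu
  | cons h _ ih => exact ih h.2.2

/-- a list of vertices of `D` from `u` to `v` -/
theorem path_list [DecidableEq V] {G : SimpleGraph V} {D : Finset V} {u v : V} (hu : u ∈ D)
    (h : (rst G D).Reachable u v) : ∃ R : List V, R.Nodup ∧ R.IsChain G.Adj ∧
      R.head? = some u ∧ R.getLast? = some v ∧ ∀ w ∈ R, w ∈ D := by
  obtain ⟨p⟩ := h
  have hne := p.toPath.1.support_ne_nil
  refine ⟨p.toPath.1.support, p.toPath.2.support_nodup, ?_, ?_, ?_, ?_⟩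
  · exact p.toPath.1.isChain_adj_support.imp fun _ _ h => h.1
  · rw [List.head?_eq_some_head hne, SimpleGraph.Walk.head_support]
  · rw [List.getLast?_eq_some_getLast hne, SimpleGraph.Walk.getLast_support]
  · intro w hw
    refine reach_mem (G := G) hu ?_
    exact (p.toPath.1.takeUntil w hw).reachable

theorem take_last (Q : List V) {i : ℕ} (hi : i < Q.length) :
    (Q.take (i + 1)).getLast? = some Q[i] := by
  rw [List.getLast?_take, if_neg (Nat.succ_ne_zero i), Nat.add_sub_cancel,
    List.getElem?_eq_getElem hi]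
  rfl

theorem drop_head (Q : List V) {i : ℕ} (hi : i < Q.length) :
    (Q.drop i).head? = some Q[i] := by
  rw [List.head?_drop, List.getElem?_eq_getElem hi]

variable [Fintype V] [DecidableEq V]

/-- One step: a path which does not cover `B` can be made longer. -/
theorem ext_step {G M : SimpleGraph V} {B : Finset V} {a t : ℕ} {x y : V} (hal : AlphaLe a G B)
    (hk : KOn (a + t) G B) (hMt : M.edgeSet.ncard + 1 ≤ t) (hxy : x ≠ y)
    (hx0 : ∀ v, ¬ M.Adj x v) {Q : List V} (hQ : HP G M B x y Q) {w : V}
    (hwB : w ∈ B) (hwQ : w ∉ Q) : ∃ Q', HP G M B x y Q' ∧ Q.length < Q'.length := by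
  classical
  -- the component of `w`
  obtain ⟨D, hD⟩ : ∃ D : Finset V, D = B.filter fun v => v ∉ Q := ⟨_, rfl⟩
  have hwD : w ∈ D := by rw [hD, mem_filter]; exact ⟨hwB, hwQ⟩
  obtain ⟨At, hAt⟩ : ∃ At : Finset V, At = univ.filter fun z => z ∈ Q ∧
    ∃ h, (rst G D).Reachable w h ∧ G.Adj z h := ⟨_, rfl⟩
  have memAt : ∀ z, z ∈ At ↔ z ∈ Q ∧ ∃ h, (rst G D).Reachable w h ∧ G.Adj z h := by
    intro z
    rw [hAt, mem_filter]
    exact ⟨fun h => h.2, fun h => ⟨mem_univ _, h⟩⟩
  have memD : ∀ v ∈ D, v ∈ B ∧ v ∉ Q := by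
    intro v hv
    rw [hD, mem_filter] at hv
    exact hv
  -- segments
  have seg : ∀ z z' : V, (∃ h, (rst G D).Reachable w h ∧ G.Adj z h) →
      (∃ h, (rst G D).Reachable w h ∧ G.Adj z' h) → ∃ R, Sg G B Q z z' R := by
    rintro z z' ⟨h, hh, hzh⟩ ⟨h', hh', hzh'⟩
    obtain ⟨R, hR1, hR2, hR3, hR4, hR5⟩ := path_list (reach_mem hwD hh) (hh.symm.trans hh')
    exact ⟨R, hR1, hR2, ⟨h, hR3, hzh⟩, ⟨h', hR4, hzh'.symm⟩, fun v hv => memD v (hR5 v hv)⟩
  -- insertion at the place `i`
  have ins : ∀ i : ℕ, ∀ hi : i + 1 < Q.length, ¬ M.Adj (Q[i]'(by omega)) Q[i + 1] →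
      (∃ h, (rst G D).Reachable w h ∧ G.Adj (Q[i]'(by omega)) h) →
      (∃ h, (rst G D).Reachable w h ∧ G.Adj Q[i + 1] h) →
      ∃ Q', HP G M B x y Q' ∧ Q.length < Q'.length := by
    intro i hi hM h1 h2
    obtain ⟨R, hR⟩ := seg _ _ h1 h2
    have hs : Q.take (i + 1) ++ Q.drop (i + 1) = Q := List.take_append_drop _ _
    have hQ' : HP G M B x y (Q.take (i + 1) ++ Q.drop (i + 1)) := by rw [hs]; exact hQ
    have hR' : Sg G B (Q.take (i + 1) ++ Q.drop (i + 1)) (Q[i]'(by omega)) Q[i + 1] R := by
      rw [hs]; exact hR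
    refine ⟨_, hp_ins hQ' (take_last Q (by omega)) (drop_head Q hi) hM hR', ?_⟩
    have h3 : 0 < R.length := List.length_pos_iff.2 hR.ne_nil
    have h4 := congrArg List.length hs
    simp only [List.length_append] at h4 ⊢
    omega
  -- the path has at least two vertices
  have hlen : 1 < Q.length := by
    rcases hQl : Q with _ | ⟨q0, _ | ⟨q1, Q'⟩⟩
    · have := hQ.head
      rw [hQl] at this
      simp at this
    · have h1 := hQ.head
      have h2 := hQ.last
      rw [hQl] at h1 h2
      simp only [List.head?_cons, Option.some.injEq, List.getLast?_singleton] at h1 h2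
      exact absurd (h1.symm.trans h2) hxy
    · simp
  have hQ0 : Q[0] = x := by
    have h1 := hQ.head
    rw [List.head?_eq_getElem?, List.getElem?_eq_getElem (by omega), Option.some_inj] at h1
    exact h1
  by_cases hall : ∀ z ∈ Q, z ∈ At
  · -- all vertices are attachments
    refine ins 0 hlen (by rw [hQ0]; exact hx0 _) ?_ ?_
    · exact ((memAt _).1 (hall _ (List.getElem_mem _))).2
    · exact ((memAt _).1 (hall _ (List.getElem_mem _))).2
  · push Not at hall
    obtain ⟨r, hrQ, hrA⟩ := hall
    -- many attachments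
    have hcard : a + t ≤ At.card := by
      by_contra hc
      push Not at hc
      have hcon := hk.2 At hc
      have hwA : w ∉ At := fun h => hwQ ((memAt w).1 h).1
      have hrB : r ∈ B := hQ.sub r hrQ
      have hwm : w ∈ ((B \ At : Finset V) : Set V) := mem_coe.2 (mem_sdiff.2 ⟨hwB, hwA⟩)
      have hrm : r ∈ ((B \ At : Finset V) : Set V) := mem_coe.2 (mem_sdiff.2 ⟨hrB, hrA⟩)
      obtain ⟨p⟩ := hcon.preconnected ⟨w, hwm⟩ ⟨r, hrm⟩
      have key : ∀ (u v : ((B \ At : Finset V) : Set V)),
          (G.induce ((B \ At : Finset V) : Set V)).Walk u v →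
          (rst G D).Reachable w u.1 → (rst G D).Reachable w v.1 := by
        intro u v p
        induction p with
        | nil => exact fun h => h
        | @cons u v' _ h _ ih =>
          intro hu
          refine ih ?_
          have hadj : G.Adj u.1 v'.1 := h
          have huD : u.1 ∈ D := reach_mem hwD hu
          have hv' := mem_sdiff.1 (mem_coe.1 v'.2)
          have hvQ : v'.1 ∉ Q := fun hq => hv'.2 ((memAt _).2 ⟨hq, u.1, hu, hadj.symm⟩)
          have hvD : v'.1 ∈ D := by rw [hD, mem_filter]; exact ⟨hv'.1, hvQ⟩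
          exact hu.trans (SimpleGraph.Adj.reachable ⟨hadj, huD, hvD⟩)
      have h1 := key _ _ p (SimpleGraph.Reachable.refl w)
      exact (memD _ (reach_mem hwD h1)).2 hrQ
    -- indices
    obtain ⟨q, hq⟩ : ∃ q : ℕ → V, ∀ i, ∀ hi : i < Q.length, q i = Q[i] :=
      ⟨fun i => Q[i]?.getD x, fun i hi => by simp [List.getElem?_eq_getElem hi]⟩
    have qinj : ∀ i j, i < Q.length → j < Q.length → q i = q j → i = j := by
      intro i j hi hj h
      rw [hq i hi, hq j hj] at h
      exact (List.Nodup.getElem_inj_iff hQ.nodup).1 h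
    obtain ⟨I, hI⟩ : ∃ I : Finset ℕ, I = (range (Q.length - 1)).filter fun i =>
      q i ∈ At ∧ ¬ M.Adj (q i) (q (i + 1)) := ⟨_, rfl⟩
    obtain ⟨K, hK⟩ : ∃ K : Finset ℕ, K = (range (Q.length - 1)).filter fun i =>
      M.Adj (q i) (q (i + 1)) := ⟨_, rfl⟩
    have hKc : K.card ≤ M.edgeSet.ncard := by
      have h1 : ((K.image fun i => s(q i, q (i + 1)) : Finset (Sym2 V)) : Set (Sym2 V)) ⊆
          M.edgeSet := by
        intro e he
        obtain ⟨i, hi, rfl⟩ := mem_image.1 (mem_coe.1 he)
        rw [hK, mem_filter] at hi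
        exact hi.2
      have h2 := Set.ncard_le_ncard h1 (Set.toFinite _)
      rw [Set.ncard_coe_finset, card_image_of_injOn] at h2
      · exact h2
      · intro i hi j hj hij
        rw [mem_coe, hK, mem_filter, mem_range] at hi hj
        have hij' : s(q i, q (i + 1)) = s(q j, q (j + 1)) := hij
        rw [Sym2.eq_iff] at hij'
        rcases hij' with h3 | h3
        · exact qinj i j (by omega) (by omega) h3.1
        · have h4 := qinj i (j + 1) (by omega) (by omega) h3.1
          have h5 := qinj (i + 1) j (by omega) (by omega) h3.2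
          omega
    have hIc : a ≤ I.card := by
      have h1 : At ⊆ (insert (Q.length - 1) (I ∪ K)).image q := by
        intro z hz
        obtain ⟨i, hi, hiz⟩ := List.mem_iff_getElem.1 ((memAt z).1 hz).1
        rw [mem_image]
        refine ⟨i, ?_, by rw [hq i hi, hiz]⟩
        rw [mem_insert, mem_union, hI, hK, mem_filter, mem_filter, mem_range]
        by_cases h2 : i = Q.length - 1
        · exact Or.inl h2
        · right
          by_cases h3 : M.Adj (q i) (q (i + 1))
          · exact Or.inr ⟨by omega, h3⟩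
          · exact Or.inl ⟨by omega, by rw [hq i hi, hiz]; exact hz, h3⟩
      have h2 := (card_le_card h1).trans card_image_le
      have h3 := card_insert_le (Q.length - 1) (I ∪ K)
      have h4 := card_union_le I K
      omega
    -- the independent set
    have hT : ∃ i ∈ I, ∃ z, G.Adj (q (i + 1)) z ∧ (z = w ∨ ∃ j ∈ I, i < j ∧ z = q (j + 1)) := by
      by_contra hcon
      push Not at hcon
      have hwI : w ∉ I.image fun i => q (i + 1) := by
        intro hw
        obtain ⟨i, hi, hiw⟩ := mem_image.1 hw
        rw [hI, mem_filter, mem_range] at hi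
        have hiw' : q (i + 1) = w := hiw
        rw [hq (i + 1) (by omega)] at hiw'
        exact hwQ (hiw' ▸ List.getElem_mem _)
      have hcI : (I.image fun i => q (i + 1)).card = I.card := by
        refine card_image_of_injOn ?_
        intro i hi j hj hij
        rw [mem_coe, hI, mem_filter, mem_range] at hi hj
        have h1 := qinj (i + 1) (j + 1) (by omega) (by omega) hij
        omega
      have hsub : insert w (I.image fun i => q (i + 1)) ⊆ B := by
        intro z hz
        rw [mem_insert, mem_image] at hz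
        rcases hz with rfl | ⟨i, hi, rfl⟩
        · exact hwB
        · rw [hI, mem_filter, mem_range] at hi
          rw [hq (i + 1) (by omega)]
          exact hQ.sub _ (List.getElem_mem _)
      have h1 := hal _ hsub (by
        intro u hu v hv huv
        rw [mem_coe, mem_insert, mem_image] at hu hv
        rcases hu with rfl | ⟨i, hi, rfl⟩
        · rcases hv with rfl | ⟨j, hj, rfl⟩
          · exact absurd rfl huv
          · exact fun h => (hcon j hj _ h.symm).1 rfl
        · rcases hv with rfl | ⟨j, hj, rfl⟩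
          · exact fun h => (hcon i hi _ h).1 rfl
          · intro h
            rcases lt_trichotomy i j with hij | hij | hij
            · exact (hcon i hi _ h).2 j hj hij rfl
            · subst hij
              exact huv rfl
            · exact (hcon j hj _ h.symm).2 i hi hij rfl)
      rw [card_insert_of_notMem hwI, hcI] at h1
      omega
    obtain ⟨i, hi, z, hz, hzz⟩ := hT
    rw [hI, mem_filter, mem_range] at hi
    obtain ⟨hin, hiA, hiM⟩ := hi
    rw [hq i (by omega)] at hiA hiM
    rw [hq (i + 1) (by omega)] at hiM hz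
    rcases hzz with rfl | ⟨j, hj, hij, rfl⟩
    · exact ins i (by omega) hiM ((memAt _).1 hiA).2 ⟨z, SimpleGraph.Reachable.refl _, hz⟩
    · rw [hI, mem_filter, mem_range] at hj
      obtain ⟨hjn, hjA, hjM⟩ := hj
      rw [hq j (by omega)] at hjA hjM
      rw [hq (j + 1) (by omega)] at hjM hz
      obtain ⟨R, hR⟩ := seg _ _ ((memAt _).1 hiA).2 ((memAt _).1 hjA).2
      -- the decomposition
      have hs : Q.take (i + 1) ++ (Q.take (j + 1)).drop (i + 1) ++ Q.drop (j + 1) = Q := by
        have h1 : Q.take (i + 1) = (Q.take (j + 1)).take (i + 1) := by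
          rw [List.take_take, Nat.min_eq_left (by omega)]
        rw [h1, List.take_append_drop, List.take_append_drop]
      have hQ' : HP G M B x y
          (Q.take (i + 1) ++ (Q.take (j + 1)).drop (i + 1) ++ Q.drop (j + 1)) := by
        rw [hs]; exact hQ
      have hR' : Sg G B (Q.take (i + 1) ++ (Q.take (j + 1)).drop (i + 1) ++ Q.drop (j + 1))
          (Q[i]'(by omega)) (Q[j]'(by omega)) R := by
        rw [hs]; exact hR
      have hlt : i + 1 < (Q.take (j + 1)).length := by
        rw [List.length_take]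
        omega
      have hD1 : ((Q.take (j + 1)).drop (i + 1)).head? = some (Q[i + 1]'(by omega)) := by
        rw [drop_head _ hlt, List.getElem_take]
      have hD2 : ((Q.take (j + 1)).drop (i + 1)).getLast? = some (Q[j]'(by omega)) := by
        have h1 := take_last Q (i := j) (by omega)
        rw [← h1]
        conv_rhs => rw [← List.take_append_drop (i + 1) (Q.take (j + 1))]
        rw [last_append]
        intro h0
        rw [h0] at hD1
        simp at hD1
      refine ⟨_, hp_rev hQ' (take_last Q (by omega)) hD1 hD2 (drop_head Q (by omega)) hiM hjM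
        hz hR', ?_⟩
      have h3 : 0 < R.length := List.length_pos_iff.2 hR.ne_nil
      have h4 := congrArg List.length hs
      simp only [List.length_append, List.length_reverse] at h4 ⊢
      omega

theorem pf_EXT : T_EXT := by
  intro V _ _ G M B a t x y hal hk _ _ hMt _ _ hxy hx0 _ hex
  have hx : ∀ v, ¬ M.Adj x v := by
    intro v hv
    have h1 : (M.neighborSet x).ncard = 0 := hx0
    rw [Set.ncard_eq_zero (Set.toFinite _)] at h1
    have h2 : v ∈ M.neighborSet x := hv
    rw [h1] at h2
    exact h2
  have main : ∀ k : ℕ, ∀ Q, HP G M B x y Q → B.card - Q.length ≤ k →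
      ∃ Q, HP G M B x y Q ∧ ∀ v ∈ B, v ∈ Q := by
    intro k
    induction k with
    | zero =>
      intro Q hQ hk0
      refine ⟨Q, hQ, ?_⟩
      have h1 : Q.toFinset ⊆ B := fun v hv => hQ.sub v (List.mem_toFinset.1 hv)
      have h2 : Q.toFinset.card = Q.length := List.toFinset_card_of_nodup hQ.nodup
      have h3 : Q.toFinset = B := eq_of_subset_of_card_le h1 (by omega)
      intro v hv
      rw [← h3] at hv
      exact List.mem_toFinset.1 hv
    | succ k ih =>
      intro Q hQ hk0
      by_cases h : ∀ v ∈ B, v ∈ Q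
      · exact ⟨Q, hQ, h⟩
      · push Not at h
        obtain ⟨w, hwB, hwQ⟩ := h
        obtain ⟨Q', hQ', hlt⟩ := ext_step hal hk hMt hxy hx hQ hwB hwQ
        refine ih Q' hQ' ?_
        omega
  obtain ⟨Q, hQ⟩ := hex
  exact main _ Q hQ le_rfl

end Pool.Agent.H75.JWQ
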