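import Pool.Agent.H56.JW.Targets

/-!
# Lists: insertion of a path and rotation (for row EXT of the board jwq_modules)
-/

set_option autoImplicit false

open Finset

namespace Pool.Agent.H75.JWQ

open Pool.Agent.H56.JW

variable {V : Type}

/-- Consecutive pairs in a concatenation. -/
theorem pair_append {u v : V} : ∀ {A B : List V}, [u, v] <:+: A ++ B →
    [u, v] <:+: A ∨ [u, v] <:+: B ∨ (A.getLast? = some u ∧ B.head? = some v)
  | [], B, h => Or.inr (Or.inl h)
  | c :: A, B, h => by
    rw [List.cons_append, List.infix_cons_iff] at h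
    rcases h with h | h
    · rw [List.cons_prefix_cons] at h
      obtain ⟨rfl, h⟩ := h
      rcases A with _ | ⟨d, A⟩
      · rw [List.nil_append] at h
        refine Or.inr (Or.inr ⟨by simp, ?_⟩)
        rcases B with _ | ⟨e, B⟩
        · simp at h
        · rw [List.cons_prefix_cons] at h
          rw [← h.1]
          rfl
      · rw [List.cons_append, List.cons_prefix_cons] at h
        left
        rw [← h.1]
        exact ⟨[], A, by simp⟩
    · rcases pair_append h with h1 | h1 | h1
      · exact Or.inl (List.infix_cons_iff.2 (Or.inr h1))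
      · exact Or.inr (Or.inl h1)
      · refine Or.inr (Or.inr ⟨?_, h1.2⟩)
        rcases A with _ | ⟨d, A⟩
        · simp at h1
        · rw [List.getLast?_cons_cons]
          exact h1.1

theorem infix_left {l A B : List V} (h : l <:+: A) : l <:+: A ++ B :=
  h.trans ⟨[], B, by simp⟩

theorem infix_right {l A B : List V} (h : l <:+: B) : l <:+: A ++ B :=
  h.trans ⟨A, [], by simp⟩

theorem ne_nil_of_head {A : List V} {z : V} (h : A.head? = some z) : A ≠ [] := by
  rintro rfl
  simp at h

theorem ne_nil_of_last {A : List V} {z : V} (h : A.getLast? = some z) : A ≠ [] := by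
  rintro rfl
  simp at h

theorem head_append {A B : List V} (h : A ≠ []) : (A ++ B).head? = A.head? := by
  rcases A with _ | ⟨a, A⟩
  · exact absurd rfl h
  · rfl

theorem last_append {A B : List V} (h : B ≠ []) : (A ++ B).getLast? = B.getLast? := by
  rw [List.getLast?_append]
  rcases hB : B.getLast? with _ | b
  · exact absurd (List.getLast?_eq_none_iff.1 hB) h
  · rfl

/-- A segment which can be inserted. -/
structure Sg (G : SimpleGraph V) (B : Finset V) (Q : List V) (z z' : V) (R : List V) : Prop where
  nodup : R.Nodup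
  chain : R.IsChain G.Adj
  first : ∃ h, R.head? = some h ∧ G.Adj z h
  last : ∃ h, R.getLast? = some h ∧ G.Adj h z'
  sub : ∀ v ∈ R, v ∈ B ∧ v ∉ Q

theorem Sg.ne_nil {G : SimpleGraph V} {B : Finset V} {Q : List V} {z z' : V} {R : List V}
    (h : Sg G B Q z z' R) : R ≠ [] := by
  obtain ⟨_, h1, _⟩ := h.first
  exact ne_nil_of_head h1

/-- Insertion of a segment. -/
theorem hp_ins {G M : SimpleGraph V} {B : Finset V} {x y : V} {A C R : List V}
    (h : HP G M B x y (A ++ C)) {z z' : V} (hA : A.getLast? = some z) (hC : C.head? = some z')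
    (hM : ¬ M.Adj z z') (hR : Sg G B (A ++ C) z z' R) : HP G M B x y (A ++ R ++ C) := by
  have hA0 := ne_nil_of_last hA
  have hC0 := ne_nil_of_head hC
  have hR0 := hR.ne_nil
  obtain ⟨h1, hh1, hz1⟩ := hR.first
  obtain ⟨h2, hh2, hz2⟩ := hR.last
  have hch := List.isChain_append.1 h.chain
  have key : ∀ u v, M.Adj u v → [u, v] <:+: A ++ C → [u, v] <:+: A ++ R ++ C := by
    intro u v huv hi
    rcases pair_append hi with h3 | h3 | ⟨h3, h4⟩
    · exact infix_left (infix_left h3)
    · exact infix_right h3
    · rw [hA, Option.some_inj] at h3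
      rw [hC, Option.some_inj] at h4
      rw [← h3, ← h4] at huv
      exact absurd huv hM
  refine ⟨?_, ?_, ?_, ?_, ?_, ?_⟩
  · have hp : (A ++ R ++ C).Perm (R ++ (A ++ C)) := by
      rw [← List.append_assoc]
      exact List.Perm.append_right C List.perm_append_comm
    rw [hp.nodup_iff, List.nodup_append]
    exact ⟨hR.nodup, h.nodup, fun a ha b hb hab => (hR.sub a ha).2 (hab ▸ hb)⟩
  · rw [List.isChain_append, List.isChain_append]
    refine ⟨⟨hch.1, hR.chain, ?_⟩, hch.2.1, ?_⟩
    · intro p hp q hq
      rw [hA, Option.mem_some_iff] at hp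
      rw [hh1, Option.mem_some_iff] at hq
      rw [← hp, ← hq]
      exact hz1
    · intro p hp q hq
      rw [last_append hR0, hh2, Option.mem_some_iff] at hp
      rw [hC, Option.mem_some_iff] at hq
      rw [← hp, ← hq]
      exact hz2
  · rw [List.append_assoc, head_append hA0, ← head_append (B := C) hA0]
    exact h.head
  · rw [last_append hC0, ← last_append (A := A) hC0]
    exact h.last
  · intro v hv
    rw [List.mem_append, List.mem_append] at hv
    rcases hv with (hv | hv) | hv
    · exact h.sub v (List.mem_append.2 (Or.inl hv))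
    · exact (hR.sub v hv).1
    · exact h.sub v (List.mem_append.2 (Or.inr hv))
  · intro u v huv
    rcases h.has u v huv with h3 | h3
    · exact Or.inl (key u v huv h3)
    · exact Or.inr (key v u huv.symm h3)

/-- Insertion of a segment and reversal of a part. -/
theorem hp_rev {G M : SimpleGraph V} {B : Finset V} {x y : V} {A D C R : List V}
    (h : HP G M B x y (A ++ D ++ C)) {z₁ p₁ z₂ p₂ : V} (hA : A.getLast? = some z₁)
    (hD1 : D.head? = some p₁) (hD2 : D.getLast? = some z₂) (hC : C.head? = some p₂)
    (hM1 : ¬ M.Adj z₁ p₁) (hM2 : ¬ M.Adj z₂ p₂) (hp : G.Adj p₁ p₂)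
    (hR : Sg G B (A ++ D ++ C) z₁ z₂ R) : HP G M B x y (A ++ R ++ D.reverse ++ C) := by
  have hA0 := ne_nil_of_last hA
  have hC0 := ne_nil_of_head hC
  have hD0 := ne_nil_of_head hD1
  have hDr0 : D.reverse ≠ [] := by simpa using hD0
  have hR0 := hR.ne_nil
  obtain ⟨h1, hh1, hz1⟩ := hR.first
  obtain ⟨h2, hh2, hz2⟩ := hR.last
  have hch := List.isChain_append.1 h.chain
  have hch' := List.isChain_append.1 hch.1
  have hDr : D.reverse.IsChain G.Adj := by
    rw [List.isChain_reverse]
    exact hch'.2.1.imp fun _ _ h3 => h3.symm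
  have key : ∀ u v, M.Adj u v → [u, v] <:+: A ++ D ++ C →
      [u, v] <:+: A ++ R ++ D.reverse ++ C ∨ [v, u] <:+: A ++ R ++ D.reverse ++ C := by
    intro u v huv hi
    rcases pair_append hi with h3 | h3 | ⟨h3, h4⟩
    · rcases pair_append h3 with h5 | h5 | ⟨h5, h6⟩
      · exact Or.inl (infix_left (infix_left (infix_left h5)))
      · right
        refine infix_left (infix_right ?_)
        have h7 : [u, v].reverse <:+: D.reverse := List.reverse_infix.2 h5
        exact h7
      · rw [hA, Option.some_inj] at h5
        rw [hD1, Option.some_inj] at h6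
        rw [← h5, ← h6] at huv
        exact absurd huv hM1
    · exact Or.inl (infix_right h3)
    · rw [last_append hD0, hD2, Option.some_inj] at h3
      rw [hC, Option.some_inj] at h4
      rw [← h3, ← h4] at huv
      exact absurd huv hM2
  refine ⟨?_, ?_, ?_, ?_, ?_, ?_⟩
  · have hpm : (A ++ R ++ D.reverse ++ C).Perm (R ++ (A ++ D ++ C)) := by
      rw [← List.append_assoc]
      refine List.Perm.append_right C ?_
      rw [← List.append_assoc]
      refine (List.Perm.append_left _ (List.reverse_perm D)).trans ?_
      exact List.Perm.append_right D List.perm_append_comm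
    rw [hpm.nodup_iff, List.nodup_append]
    exact ⟨hR.nodup, h.nodup, fun a ha b hb hab => (hR.sub a ha).2 (hab ▸ hb)⟩
  · rw [List.isChain_append, List.isChain_append, List.isChain_append]
    refine ⟨⟨⟨hch'.1, hR.chain, ?_⟩, hDr, ?_⟩, hch.2.1, ?_⟩
    · intro p hp' q hq
      rw [hA, Option.mem_some_iff] at hp'
      rw [hh1, Option.mem_some_iff] at hq
      rw [← hp', ← hq]
      exact hz1
    · intro p hp' q hq
      rw [last_append hR0, hh2, Option.mem_some_iff] at hp'
      rw [List.head?_reverse, hD2, Option.mem_some_iff] at hq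
      rw [← hp', ← hq]
      exact hz2
    · intro p hp' q hq
      rw [last_append hDr0, List.getLast?_reverse, hD1, Option.mem_some_iff] at hp'
      rw [hC, Option.mem_some_iff] at hq
      rw [← hp', ← hq]
      exact hp
  · rw [List.append_assoc, List.append_assoc, head_append hA0, ← head_append (B := D ++ C) hA0,
      ← List.append_assoc]
    exact h.head
  · rw [last_append hC0, ← last_append (A := A ++ D) hC0]
    exact h.last
  · intro v hv
    rw [List.mem_append, List.mem_append, List.mem_append, List.mem_reverse] at hv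
    rcases hv with ((hv | hv) | hv) | hv
    · exact h.sub v (by simp [hv])
    · exact (hR.sub v hv).1
    · exact h.sub v (by simp [hv])
    · exact h.sub v (by simp [hv])
  · intro u v huv
    rcases h.has u v huv with h3 | h3
    · exact key u v huv h3
    · exact (key v u huv.symm h3).symm

end Pool.Agent.H75.JWQ
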